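import Pool.Agent.K4H19.GM.Fin

/-! The least number of integers free of small primes in an interval. -/

set_option autoImplicit false

open Finset Filter
open scoped Topology

namespace Pool.Agent.K4H19.GX

open Pool.Agent.K4H19.GM

/-- survivors of the sieve by the primes up to `t` in `(a, a + g]` -/
def cnt (t a g : ℕ) : ℕ := ((Ioc a (a + g)).filter (fun n => ∀ p ∈ Pr t, ¬ p ∣ n)).card

/-- the least number of survivors in `g` consecutive integers -/
noncomputable def Mn (t g : ℕ) : ℕ := sInf (Set.range fun a => cnt t a g)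

lemma E_eq (t a g : ℕ) : E t a g = cnt t a g := rfl

lemma Mn_le (t a g : ℕ) : Mn t g ≤ cnt t a g := Nat.sInf_le ⟨a, rfl⟩

lemma Mn_spec (t g : ℕ) : ∃ a, cnt t a g = Mn t g := Nat.sInf_mem (Set.range_nonempty (fun a => cnt t a g))

lemma cnt_mono (t a : ℕ) {g g' : ℕ} (h : g ≤ g') : cnt t a g ≤ cnt t a g' :=
  card_le_card (filter_subset_filter _ (Ioc_subset_Ioc le_rfl (by omega)))

lemma Mn_mono (t : ℕ) {g g' : ℕ} (h : g ≤ g') : Mn t g ≤ Mn t g' := by
  obtain ⟨a, ha⟩ := Mn_spec t g'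
  rw [← ha]
  exact (Mn_le t a g).trans (cnt_mono t a h)

/-- translation by a multiple of the primorial -/
lemma cnt_shift (t a g s : ℕ) : cnt t (a + s * ∏ p ∈ Pr t, p) g = cnt t a g := by
  have h := E_shift t a g (s * ∏ p ∈ Pr t, p)
  rw [E_eq] at h
  have h2 : ((Ioc a (a + g)).filter (fun m => ∀ p ∈ Pr t, ¬ p ∣ m + s * ∏ p ∈ Pr t, p)) =
      ((Ioc a (a + g)).filter (fun m => ∀ p ∈ Pr t, ¬ p ∣ m)) := by
    apply filter_congr
    intro m _
    have h3 : ∀ p ∈ Pr t, (p ∣ m + s * ∏ p ∈ Pr t, p ↔ p ∣ m) := by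
      intro p hp
      exact Nat.dvd_add_left (Dvd.dvd.mul_left (dvd_prod_of_mem _ hp) s)
    constructor
    · intro h4 p hp h5
      exact h4 p hp ((h3 p hp).2 h5)
    · intro h4 p hp h5
      exact h4 p hp ((h3 p hp).1 h5)
  rw [h2] at h
  exact_mod_cast h

/-- the normalised least number decreases with the level -/
lemma Mn_anti {t t' : ℕ} (h : t ≤ t') (g : ℕ) : (Mn t' g : ℝ) / VV (Pr t') ≤ Mn t g / VV (Pr t) := by
  classical
  have hsub : Pr t ⊆ Pr t' := by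
    intro p hp
    rw [mem_Pr] at hp ⊢
    exact ⟨hp.1, hp.2.trans h⟩
  have hV := VPr_pos t
  have hV' := VPr_pos t'
  have hmul : VV (Pr t') = VV (Pr t) * VV (Pr t' \ Pr t) := by
    unfold VV
    rw [mul_comm, prod_sdiff hsub]
  have hW : 0 < VV (Pr t' \ Pr t) := VV_pos fun p hp => (mem_Pr.1 (mem_sdiff.1 hp).1).1
  rw [div_le_div_iff₀ hV' hV, hmul]
  obtain ⟨a, ha⟩ := Mn_spec t g
  -- first with `1 + ε`
  have key : ∀ ε : ℝ, 0 < ε → (Mn t' g : ℝ) ≤ Mn t g * ((1 + ε) * VV (Pr t' \ Pr t)) := by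
    intro ε hε
    obtain ⟨B, hB, hav⟩ := avg_windows ε hε
    set C : ℝ := Mn t g * ((max t' 2 : ℕ) : ℝ) ^ B with hC
    have h1 : ∀ M : ℕ, 1 ≤ M → (Mn t' g : ℝ) ≤ Mn t g * ((1 + ε) * VV (Pr t' \ Pr t)) + C / M := by
      intro M hM
      have hM0 : (0 : ℝ) < M := by exact_mod_cast hM
      have h2 := hav t' (max t' 2) (Pr t) a g 0 M (le_max_right _ _) (le_max_left _ _) hsub
      have h3 : (M : ℝ) * Mn t' g ≤ ∑ s ∈ Ioc 0 (0 + M), E t' (a + s * ∏ p ∈ Pr t, p) g := by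
        calc (M : ℝ) * Mn t' g = ∑ _s ∈ Ioc 0 (0 + M), (Mn t' g : ℝ) := by
              rw [sum_const, nsmul_eq_mul, Nat.card_Ioc]
              simp
          _ ≤ _ := sum_le_sum fun s _ => by
              rw [E_eq]
              exact_mod_cast Mn_le t' _ g
      have h4 : (((Ioc a (a + g)).filter (fun m => ∀ p ∈ Pr t, ¬ p ∣ m)).card : ℝ) = Mn t g := by
        rw [← ha]
        rfl
      rw [h4] at h2
      have h5 := h3.trans h2
      have h6 : (Mn t g : ℝ) * ((1 + ε) * (M * VV (Pr t' \ Pr t)) + ((max t' 2 : ℕ) : ℝ) ^ B) =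
          M * (Mn t g * ((1 + ε) * VV (Pr t' \ Pr t)) + C / M) := by
        rw [hC]
        field_simp
      rw [h6] at h5
      exact le_of_mul_le_mul_left h5 hM0
    have h2 : Tendsto (fun M : ℕ => (Mn t g : ℝ) * ((1 + ε) * VV (Pr t' \ Pr t)) + C / M) atTop
        (𝓝 (Mn t g * ((1 + ε) * VV (Pr t' \ Pr t)) + 0)) :=
      (tendsto_natCast_atTop_atTop.const_div_atTop C).const_add _
    rw [add_zero] at h2
    exact ge_of_tendsto h2 ((eventually_ge_atTop 1).mono h1)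
  have h3 : (Mn t' g : ℝ) ≤ Mn t g * VV (Pr t' \ Pr t) := by
    apply le_of_forall_pos_le_add
    intro δ hδ
    have h4 : 0 ≤ (Mn t g : ℝ) * VV (Pr t' \ Pr t) := by positivity
    have h5 := key (δ / ((Mn t g : ℝ) * VV (Pr t' \ Pr t) + 1)) (by positivity)
    refine h5.trans ?_
    have h6 : (Mn t g : ℝ) * ((1 + δ / ((Mn t g : ℝ) * VV (Pr t' \ Pr t) + 1)) * VV (Pr t' \ Pr t)) =
        Mn t g * VV (Pr t' \ Pr t) + δ * ((Mn t g * VV (Pr t' \ Pr t)) / ((Mn t g : ℝ) * VV (Pr t' \ Pr t) + 1)) := by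
      field_simp
    rw [h6]
    have h7 : (Mn t g * VV (Pr t' \ Pr t)) / ((Mn t g : ℝ) * VV (Pr t' \ Pr t) + 1) ≤ 1 := by
      rw [div_le_one (by positivity)]
      linarith
    nlinarith
  nlinarith

/-- lower bound for the least number in long intervals -/
lemma Mn_low : ∃ s : ℕ, 1 ≤ s ∧ ∀ t g : ℕ, t ^ s ≤ g → (g : ℝ) * VV (Pr t) / 2 ≤ Mn t g := by
  obtain ⟨s, hs, h⟩ := fl_low (1 / 2) (by norm_num)
  refine ⟨s, hs, fun t g htg => ?_⟩
  obtain ⟨a, ha⟩ := Mn_spec t g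
  have h1 := h t g a htg
  rw [← ha]
  have e : (((Ioc a (a + g)).filter (fun n => ∀ p ∈ Pr t, ¬ p ∣ n)).card : ℝ) = cnt t a g := rfl
  rw [e] at h1
  linarith

end Pool.Agent.K4H19.GX
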