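import Pool.Agent.K4H19.GX.A

/-! Empty windows: existence. -/

set_option autoImplicit false

open MeasureTheory ProbabilityTheory Finset Filter
open scoped Topology

namespace Pool.Agent.K4H19.GX

open Pool.Agent.K4H19.GM
open Pool.Agent.K4H77.Noise (sg sg_self sg_le none_blocks prod_blocks emp emp_meas exp_le_one_sub rset mem_emp_iff)

/-- disjoint windows with the least number of survivors -/
lemma fam_exists (t g X : ℕ) : ∃ F : Finset ℕ, (∀ n ∈ F, X ≤ n ∧ n + g < 2 * X) ∧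
    (∀ n ∈ F, ∀ m ∈ F, n < m → n + g < m) ∧
    (X : ℝ) / ((∏ p ∈ Pr t, p : ℕ) * (g + 1)) - 3 ≤ F.card ∧ ∀ n ∈ F, cnt t n g = Mn t g := by
  classical
  obtain ⟨a, ha⟩ := Mn_spec t g
  set D := ∏ p ∈ Pr t, p with hD
  have hD1 : 1 ≤ D := Nat.one_le_iff_ne_zero.2 (prod_ne_zero_iff.2 fun p hp => ((mem_Pr.1 hp).1).ne_zero)
  set r := a % D with hr
  have hrD : r < D := Nat.mod_lt _ (by omega)
  have hra : cnt t r g = Mn t g := by
    rw [← ha]
    have h1 := cnt_shift t r g (a / D)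
    rw [← hD] at h1
    rw [← h1]
    congr 1
    rw [hr, mul_comm]
    exact Nat.mod_add_div a D
  set q := X / D with hq
  have hqD : q * D ≤ X := Nat.div_mul_le_self _ _
  have hq2 : X < (q + 1) * D := by
    have := Nat.lt_div_mul_add (a := X) (b := D) (by omega)
    rw [hq]
    linarith
  set W := D * (g + 1) with hW
  have hW1 : g + 1 ≤ W := by
    rw [hW]
    exact Nat.le_mul_of_pos_left _ (by omega)
  have hWD : D ≤ W := by
    rw [hW]
    exact Nat.le_mul_of_pos_right _ (by omega)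
  set N := X / W - 2 with hN
  have hNW : (X / W) * W ≤ X := Nat.div_mul_le_self _ _
  set f : ℕ → ℕ := fun s => r + ((q + 1) + s * (g + 1)) * D with hf
  have hfe : ∀ s, f s = r + (q + 1) * D + s * W := by
    intro s
    rw [hf, hW]
    ring
  have hinj : Function.Injective f := by
    intro s s' hss
    rw [hfe, hfe] at hss
    have : s * W = s' * W := by omega
    exact Nat.eq_of_mul_eq_mul_right (by omega) this
  refine ⟨(range N).image f, ?_, ?_, ?_, ?_⟩
  · intro n hn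
    rw [mem_image] at hn
    obtain ⟨s, hs, rfl⟩ := hn
    rw [mem_range] at hs
    rw [hfe]
    have h1 : (s + 3) * W ≤ (X / W) * W := Nat.mul_le_mul_right _ (by omega)
    have h2 : (s + 3) * W = s * W + 3 * W := by ring
    have h3 : (q + 1) * D = q * D + D := by ring
    constructor
    · omega
    · omega
  · intro n hn m hm hnm
    rw [mem_image] at hn hm
    obtain ⟨s, hs, rfl⟩ := hn
    obtain ⟨s', hs', rfl⟩ := hm
    rw [hfe, hfe] at hnm ⊢
    have h1 : s < s' := by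
      by_contra hcon
      have : s' * W ≤ s * W := Nat.mul_le_mul_right _ (by omega)
      omega
    have h2 : (s + 1) * W ≤ s' * W := Nat.mul_le_mul_right _ h1
    have h3 : (s + 1) * W = s * W + W := by ring
    omega
  · rw [card_image_of_injective _ hinj, card_range]
    have hWr : (0 : ℝ) < W := by
      have : 0 < W := by omega
      exact_mod_cast this
    have h1 : (X : ℝ) / W < (X / W : ℕ) + 1 := by
      rw [div_lt_iff₀ hWr]
      have := Nat.lt_div_mul_add (a := X) (b := W) (by omega)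
      have h2 : (X : ℝ) < ((X / W : ℕ) : ℝ) * W + W := by exact_mod_cast this
      linarith
    have h2 : ((X / W : ℕ) : ℝ) ≤ N + 2 := by
      have : X / W ≤ N + 2 := by omega
      exact_mod_cast this
    have e : (((D : ℕ) : ℝ) * ((g : ℝ) + 1)) = (W : ℝ) := by
      rw [hW]
      push_cast
      ring
    rw [e]
    linarith
  · intro n hn
    rw [mem_image] at hn
    obtain ⟨s, hs, rfl⟩ := hn
    rw [hf]
    simp only
    rw [cnt_shift, hra]

/-- a general criterion for empty windows -/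
theorem ae_win {T : ℕ → ℕ} (hT : Sub T) {ε : ℝ} (hε : 0 < ε) (hε1 : ε ≤ 1) (y : ℕ → ℕ)
    (hpack : ∀ᶠ j : ℕ in atTop, ∃ F : Finset ℕ, (∀ n ∈ F, 2 ^ j ≤ n ∧ n + y j < 2 * 2 ^ j) ∧
      (∀ n ∈ F, ∀ m ∈ F, n < m → n + y j < m) ∧ (2 : ℝ) ^ ((1 - ε / 4) * j) ≤ F.card ∧
      ∀ n ∈ F, (cnt (T j) n (y j) : ℝ) ≤ (1 - ε) * (VV (Pr (T j)) * ((j : ℝ) * Real.log 2) ^ 2))
    {Ω : Type} [MeasurableSpace Ω] (P : Measure Ω) [IsProbabilityMeasure P] {A : ℕ → Set Ω} (hA : Granville T P A) :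
    ∀ᵐ ω ∂P, ∀ᶠ j : ℕ in atTop, ∃ n : ℕ, 2 ^ j ≤ n ∧ n + y j < 2 * 2 ^ j ∧ ω ∈ emp A n (y j) := by
  classical
  set η : ℝ := ε / 4 with hη
  have hη0 : 0 < η := by rw [hη]; linarith
  have a1 := emp_ge hT hη0
  set Bad : ℕ → Set Ω := fun j => {ω | ¬ ∃ n : ℕ, 2 ^ j ≤ n ∧ n + y j < 2 * 2 ^ j ∧ ω ∈ emp A n (y j)} with hBad
  have hprob : ∀ᶠ j : ℕ in atTop, P (Bad j) ≤ ENNReal.ofReal (Real.exp (-(2 : ℝ) ^ (η * j))) := by
    filter_upwards [a1, hpack, eventually_ge_atTop 1] with j h1 h2 hj1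
    obtain ⟨F, f1, f2, f3, f4⟩ := h2
    have hjr : (1 : ℝ) ≤ j := by exact_mod_cast hj1
    have hl2 := log2_pos
    have hV := VPr_pos (T j)
    -- the probability of each window
    have hP : ∀ n ∈ F, ENNReal.ofReal ((2 : ℝ) ^ (-(1 - 2 * η) * j)) ≤ P (emp A n (y j)) := by
      intro n hn
      refine le_trans (ENNReal.ofReal_le_ofReal ?_) (h1 Ω _ P inferInstance A hA n (y j) (f1 n hn).1 (f1 n hn).2)
      rw [two_rpow]
      apply Real.exp_le_exp.2
      have h3 : E (T j) n (y j) * (1 / (VV (Pr (T j)) * (j * Real.log 2))) ≤ (1 - ε) * (j * Real.log 2) := by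
        rw [E_eq]
        calc (cnt (T j) n (y j) : ℝ) * (1 / (VV (Pr (T j)) * (j * Real.log 2))) ≤
            ((1 - ε) * (VV (Pr (T j)) * ((j : ℝ) * Real.log 2) ^ 2)) * (1 / (VV (Pr (T j)) * (j * Real.log 2))) := by
              apply mul_le_mul_of_nonneg_right (f4 n hn) (by positivity)
          _ = _ := by field_simp
      have h4 : (1 + η) * (1 - ε) ≤ 1 - 2 * η := by
        have : ε = 4 * η := by rw [hη]; ring
        rw [this]
        nlinarith
      have h5 : (1 + η) * (E (T j) n (y j) * (1 / (VV (Pr (T j)) * (j * Real.log 2)))) ≤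
          (1 - 2 * η) * (j * Real.log 2) := by
        calc _ ≤ (1 + η) * ((1 - ε) * (j * Real.log 2)) := by gcongr
          _ = (1 + η) * (1 - ε) * (j * Real.log 2) := by ring
          _ ≤ _ := by gcongr
      have e : -(1 - 2 * η) * Real.log 2 * j = -((1 - 2 * η) * (j * Real.log 2)) := by ring
      rw [e]
      exact neg_le_neg h5
    have h3 := none_blocks P hA.meas hA.indep (fun n : ℕ => Set.Icc (n + 1) (n + y j)) (fun n => emp A n (y j)) F
      (fun n _ => emp_meas A n (y j) _ (fun h hh => by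
        rw [mem_Icc] at hh
        exact ⟨by omega, by omega⟩))
      (by
        intro n hn m hm hnm
        rw [Set.disjoint_left]
        rintro k ⟨k1, k2⟩ ⟨k3, k4⟩
        rcases Nat.lt_or_gt_of_ne hnm with h | h
        · have := f2 n hn m hm h
          omega
        · have := f2 m hm n hn h
          omega) ((2 : ℝ) ^ (-(1 - 2 * η) * j)) (by positivity) hP
    refine le_trans (measure_mono ?_) (h3.trans (ENNReal.ofReal_le_ofReal (Real.exp_le_exp.2 (neg_le_neg ?_))))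
    · intro ω hω
      rw [Set.mem_iInter₂]
      intro n hn hcon
      exact hω ⟨n, (f1 n hn).1, (f1 n hn).2, hcon⟩
    · calc (2 : ℝ) ^ (η * j) = (2 : ℝ) ^ ((1 - η) * j) * (2 : ℝ) ^ (-(1 - 2 * η) * j) := by
            rw [← Real.rpow_add (by norm_num)]
            congr 1
            ring
        _ ≤ F.card * (2 : ℝ) ^ (-(1 - 2 * η) * j) := by gcongr
  obtain ⟨j0, hj0⟩ := eventually_atTop.1 hprob
  have hsum : (∑' j, P (Bad (j + j0))) ≠ ⊤ := by
    have h2 := (summable_nat_add_iff j0).2 (summable_exp2 hη0)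
    exact ne_top_of_le_ne_top h2.tsum_ofReal_ne_top (ENNReal.tsum_le_tsum fun j => hj0 (j + j0) (Nat.le_add_left _ _))
  filter_upwards [ae_eventually_notMem hsum] with ω hω
  obtain ⟨j1, hj1⟩ := eventually_atTop.1 hω
  filter_upwards [eventually_ge_atTop (j1 + j0)] with j hj
  have h1 := hj1 (j - j0) (by omega)
  rw [Nat.sub_add_cancel (by omega)] at h1
  by_contra hcon
  exact h1 hcon

/-- the level is `o (j)` -/
def Slow (T : ℕ → ℕ) : Prop := Tendsto (fun j : ℕ => (T j : ℝ) / j) atTop (𝓝 0)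

lemma Slow.sub {T : ℕ → ℕ} (hT : Slow T) : Sub T := by
  apply squeeze_zero' _ _ hT
  · exact Eventually.of_forall fun j => div_nonneg (Real.log_natCast_nonneg _) (Nat.cast_nonneg _)
  · refine Eventually.of_forall fun j => div_le_div_of_nonneg_right ?_ (Nat.cast_nonneg _)
    exact Real.log_le_self (Nat.cast_nonneg _)

lemma Slow.ev {T : ℕ → ℕ} (hT : Slow T) {κ : ℝ} (hκ : 0 < κ) : ∀ᶠ j : ℕ in atTop, (T j : ℝ) ≤ κ * j := by
  filter_upwards [hT.eventually_lt_const hκ, eventually_ge_atTop 1] with j hj hj1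
  have hjr : (0 : ℝ) < j := by exact_mod_cast hj1
  rw [div_lt_iff₀ hjr] at hj
  exact hj.le

lemma prim_le (t : ℕ) : ∏ p ∈ Pr t, p ≤ 4 ^ t := by
  refine le_trans (le_of_eq ?_) (primorial_le_four_pow t)
  unfold primorial
  apply prod_congr _ fun _ _ => rfl
  ext p
  simp only [mem_Pr, mem_filter, mem_range]
  constructor
  · rintro ⟨h1, h2⟩
    exact ⟨by omega, h1⟩
  · rintro ⟨h1, h2⟩
    exact ⟨h2, by omega⟩

/-- lengths are polynomially bounded -/
lemma bound_g : ∃ s : ℕ, 1 ≤ s ∧ ∀ T : ℕ → ℕ, Slow T → ∀ᶠ j : ℕ in atTop, ∀ g : ℕ,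
    (Mn (T j) g : ℝ) ≤ 2 * (VV (Pr (T j)) * ((j : ℝ) * Real.log 2) ^ 2) → g ≤ j ^ s + 4 * j ^ 2 := by
  obtain ⟨s, hs, h⟩ := Mn_low
  refine ⟨s, hs, fun T hT => ?_⟩
  filter_upwards [hT.ev one_pos, eventually_ge_atTop 1] with j hj hj1 g hg
  by_contra hcon
  have hcon : j ^ s + 4 * j ^ 2 < g := not_le.1 hcon
  rw [one_mul] at hj
  have hTj : T j ≤ j := by exact_mod_cast hj
  have h1 := h (T j) g (by
    have : T j ^ s ≤ j ^ s := Nat.pow_le_pow_left hTj s
    omega)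
  have hV := VPr_pos (T j)
  have h2 : (4 : ℝ) * (j : ℝ) ^ 2 < g := by
    have : 4 * j ^ 2 < g := by
      have : 0 ≤ j ^ s := Nat.zero_le _
      omega
    exact_mod_cast this
  have hjr : (1 : ℝ) ≤ j := by exact_mod_cast hj1
  have hl2 : Real.log 2 ≤ 1 := by have := Real.log_two_lt_d9; linarith
  have hl0 := log2_pos
  have h3 : ((j : ℝ) * Real.log 2) ^ 2 ≤ (j : ℝ) ^ 2 := by
    apply pow_le_pow_left₀ (by positivity)
    nlinarith
  have h4 : VV (Pr (T j)) * ((j : ℝ) * Real.log 2) ^ 2 ≤ VV (Pr (T j)) * (j : ℝ) ^ 2 :=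
    mul_le_mul_of_nonneg_left h3 hV.le
  have h5 : VV (Pr (T j)) * (4 * (j : ℝ) ^ 2) < VV (Pr (T j)) * g := mul_lt_mul_of_pos_left h2 hV
  linarith

/-- gaps of all lengths `g` with few survivors occur in each block -/
theorem ae_short {T : ℕ → ℕ} (hT : Slow T) {ε : ℝ} (hε : 0 < ε) (hε1 : ε ≤ 1)
    {Ω : Type} [MeasurableSpace Ω] (P : Measure Ω) [IsProbabilityMeasure P] {A : ℕ → Set Ω} (hA : Granville T P A) :
    ∀ᵐ ω ∂P, ∀ᶠ j : ℕ in atTop, ∀ g : ℕ, (Mn (T j) g : ℝ) ≤ (1 - ε) * (VV (Pr (T j)) * ((j : ℝ) * Real.log 2) ^ 2) →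
      ∃ n : ℕ, 2 ^ j ≤ n ∧ n + g < 2 * 2 ^ j ∧ ∀ i ∈ Icc 1 g, n + i ∉ rset A ω := by
  classical
  obtain ⟨s, hs, hb⟩ := bound_g
  have hb' := hb T hT
  set y : ℕ → ℕ := fun j => Nat.findGreatest (fun g => (Mn (T j) g : ℝ) ≤ (1 - ε) * (VV (Pr (T j)) * ((j : ℝ) * Real.log 2) ^ 2))
    (j ^ s + 4 * j ^ 2) with hy
  have hyP : ∀ j, (Mn (T j) (y j) : ℝ) ≤ (1 - ε) * (VV (Pr (T j)) * ((j : ℝ) * Real.log 2) ^ 2) := by
    intro j
    apply Nat.findGreatest_spec (P := fun g => (Mn (T j) g : ℝ) ≤ (1 - ε) * (VV (Pr (T j)) * ((j : ℝ) * Real.log 2) ^ 2))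
      (Nat.zero_le (j ^ s + 4 * j ^ 2))
    have h0 : Mn (T j) 0 = 0 := by
      apply Nat.le_zero.1
      refine (Mn_le (T j) 0 0).trans ?_
      unfold cnt
      simp
    rw [h0]
    have h1 := VPr_pos (T j)
    have h2 : 0 ≤ 1 - ε := by linarith
    push_cast
    exact mul_nonneg h2 (by positivity)
  have hyle : ∀ j, y j ≤ j ^ s + 4 * j ^ 2 := fun j => Nat.findGreatest_le _
  have hη : 0 < ε / 12 := by linarith
  have hpack : ∀ᶠ j : ℕ in atTop, ∃ F : Finset ℕ, (∀ n ∈ F, 2 ^ j ≤ n ∧ n + y j < 2 * 2 ^ j) ∧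
      (∀ n ∈ F, ∀ m ∈ F, n < m → n + y j < m) ∧ (2 : ℝ) ^ ((1 - ε / 4) * j) ≤ F.card ∧
      ∀ n ∈ F, (cnt (T j) n (y j) : ℝ) ≤ (1 - ε) * (VV (Pr (T j)) * ((j : ℝ) * Real.log 2) ^ 2) := by
    filter_upwards [hT.ev (show 0 < ε / 24 by linarith), ev_pow 6 (s + 2) hη, ev_pow 4 0 hη, eventually_ge_atTop 1]
      with j h1 h2 h3 hj1
    obtain ⟨F, f1, f2, f3, f4⟩ := fam_exists (T j) (y j) (2 ^ j)
    refine ⟨F, f1, f2, ?_, fun n hn => ?_⟩
    · refine le_trans ?_ f3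
      have hjr : (1 : ℝ) ≤ j := by exact_mod_cast hj1
      have hD0 : (0 : ℝ) < ((∏ p ∈ Pr (T j), p : ℕ) : ℝ) := by
        exact_mod_cast prod_pos fun p hp => ((mem_Pr.1 hp).1).pos
      have hD : ((∏ p ∈ Pr (T j), p : ℕ) : ℝ) ≤ (2 : ℝ) ^ ((ε / 12) * j) := by
        have h4 : ((∏ p ∈ Pr (T j), p : ℕ) : ℝ) ≤ ((4 ^ T j : ℕ) : ℝ) := by exact_mod_cast prim_le (T j)
        refine h4.trans ?_
        have e : ((4 ^ T j : ℕ) : ℝ) = (2 : ℝ) ^ (2 * (T j : ℝ)) := by
          push_cast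
          rw [Real.rpow_mul (by norm_num), Real.rpow_natCast]
          norm_num
        rw [e]
        apply Real.rpow_le_rpow_of_exponent_le (by norm_num)
        linarith
      have hy1 : ((y j : ℝ) + 1) ≤ (2 : ℝ) ^ ((ε / 12) * j) := by
        refine le_trans ?_ h2
        have h5 : (y j : ℝ) ≤ (j : ℝ) ^ s + 4 * (j : ℝ) ^ 2 := by exact_mod_cast hyle j
        have h6 : (j : ℝ) ^ s ≤ (j : ℝ) ^ (s + 2) := pow_le_pow_right₀ hjr (by omega)
        have h7 : (j : ℝ) ^ 2 ≤ (j : ℝ) ^ (s + 2) := pow_le_pow_right₀ hjr (by omega)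
        have h8 : (1 : ℝ) ≤ (j : ℝ) ^ (s + 2) := one_le_pow₀ hjr
        have e : (j : ℝ) ^ ((s : ℝ) + 2) = (j : ℝ) ^ (s + 2) := by
          rw [← Real.rpow_natCast]
          push_cast
          rfl
        rw [e]
        linarith
      have hy0 : (0 : ℝ) < (y j : ℝ) + 1 := by positivity
      set w : ℝ := (2 : ℝ) ^ ((ε / 12) * j) with hw
      have hw0 : 0 < w := by positivity
      have hz0 : 0 < (2 : ℝ) ^ ((1 - ε / 4) * j) := by positivity
      have hz1 : 1 ≤ (2 : ℝ) ^ ((1 - ε / 4) * j) := by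
        apply Real.one_le_rpow (by norm_num)
        apply mul_nonneg (by linarith) (by positivity)
      rw [Real.rpow_zero, mul_one] at h3
      have e2 : ((2 ^ j : ℕ) : ℝ) = (2 : ℝ) ^ ((1 - ε / 4) * j) * (w * w * w) := by
        rw [hw, ← Real.rpow_add (by norm_num), ← Real.rpow_add (by norm_num), ← Real.rpow_add (by norm_num)]
        push_cast
        rw [← Real.rpow_natCast]
        congr 1
        ring
      have h9 : (2 : ℝ) ^ ((1 - ε / 4) * j) * w ≤ ((2 ^ j : ℕ) : ℝ) / ((∏ p ∈ Pr (T j), p : ℕ) * ((y j : ℝ) + 1)) := by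
        rw [le_div_iff₀ (by positivity), e2]
        calc (2 : ℝ) ^ ((1 - ε / 4) * j) * w * (((∏ p ∈ Pr (T j), p : ℕ) : ℝ) * ((y j : ℝ) + 1)) ≤
            (2 : ℝ) ^ ((1 - ε / 4) * j) * w * (w * w) := by gcongr
          _ = _ := by ring
      nlinarith
    · rw [f4 n hn]
      exact hyP j
  filter_upwards [ae_win hT.sub hε hε1 y hpack P hA] with ω hω
  filter_upwards [hω, hb', eventually_ge_atTop 1] with j hj hbj hj1 g hg
  obtain ⟨n, h1, h2, h3⟩ := hj
  have hV := VPr_pos (T j)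
  have hgy : g ≤ y j := by
    apply Nat.le_findGreatest _ hg
    apply hbj
    refine hg.trans ?_
    apply mul_le_mul_of_nonneg_right (by linarith) (by positivity)
  refine ⟨n, h1, by omega, fun i hi => ?_⟩
  apply (mem_emp_iff A ω n _).1 h3
  rw [mem_Icc] at hi ⊢
  omega

end Pool.Agent.K4H19.GX
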