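import Pool.Agent.K4H19.GX.B

/-! No long empty windows. -/

set_option autoImplicit false

open MeasureTheory ProbabilityTheory Finset Filter
open scoped Topology

namespace Pool.Agent.K4H19.GX

open Pool.Agent.K4H19.GM
open Pool.Agent.K4H77.Noise (sg sg_self sg_le none_blocks prod_blocks emp emp_meas exp_le_one_sub rset mem_emp_iff)

variable {Ω : Type*} [MeasurableSpace Ω]

lemma emp_le_cnt {T : ℕ → ℕ} {P : Measure Ω} [IsProbabilityMeasure P] {A : ℕ → Set Ω} (hA : Granville T P A)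
    (t n H : ℕ) {κ : ℝ} (h : ∀ m ∈ Ioc n (n + H), (∀ p ∈ Pr t, ¬ p ∣ m) → κ ≤ prb T m) :
    P (emp A n H) ≤ ENNReal.ofReal (Real.exp (-(κ * cnt t n H))) := by
  classical
  rw [emp_prob hA]
  apply ENNReal.ofReal_le_ofReal
  have hsum : κ * cnt t n H ≤ ∑ h ∈ Icc 1 H, prb T (n + h) := by
    rw [sum_shift (fun m => prb T m)]
    calc κ * cnt t n H = ∑ m ∈ (Ioc n (n + H)).filter (fun m => ∀ p ∈ Pr t, ¬ p ∣ m), κ := by
          rw [sum_const, nsmul_eq_mul, mul_comm]
          rfl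
      _ ≤ ∑ m ∈ (Ioc n (n + H)).filter (fun m => ∀ p ∈ Pr t, ¬ p ∣ m), prb T m := by
          apply sum_le_sum
          intro m hm
          rw [mem_filter] at hm
          exact h m hm.1 hm.2
      _ ≤ ∑ m ∈ Ioc n (n + H), prb T m :=
          sum_le_sum_of_subset_of_nonneg (filter_subset _ _) fun m _ _ => prb_nonneg T m
  calc ∏ h ∈ Icc 1 H, (1 - prb T (n + h)) ≤ ∏ h ∈ Icc 1 H, Real.exp (-prb T (n + h)) := by
        apply Finset.prod_le_prod
        · intro h _
          have := prb_le_one T (n + h)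
          linarith
        · intro h _
          have := Real.add_one_le_exp (-prb T (n + h))
          linarith
    _ = Real.exp (-∑ h ∈ Icc 1 H, prb T (n + h)) := by
        rw [← Real.exp_sum, sum_neg_distrib]
    _ ≤ _ := Real.exp_le_exp.2 (neg_le_neg hsum)

/-- the probability of a selected survivor in the block `j` -/
lemma prb_in {T : ℕ → ℕ} {j m : ℕ} (hj1 : 1 ≤ j) (hq : 1 / (VV (Pr (T j)) * (j * Real.log 2)) ≤ 1)
    (h1 : 2 ^ j ≤ m) (h2 : m < 2 * 2 ^ j) (hm : ∀ p ∈ Pr (T j), ¬ p ∣ m) :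
    1 / (VV (Pr (T j)) * (((j : ℝ) + 1) * Real.log 2)) ≤ prb T m := by
  have hjr : (1 : ℝ) ≤ j := by exact_mod_cast hj1
  have hl2 := log2_pos
  have hV := VPr_pos (T j)
  have hlog : Nat.log 2 m = j := log_block h1 h2
  unfold prb
  rw [hlog, if_pos hm]
  have hp : 2 ^ 1 ≤ 2 ^ j := Nat.pow_le_pow_right (by norm_num) hj1
  have hmr : (1 : ℝ) < m := by exact_mod_cast (by omega : 1 < m)
  have h4 : Real.log m ≤ ((j : ℝ) + 1) * Real.log 2 := by
    have h5 : Real.log m ≤ ((j + 1 : ℕ) : ℝ) * Real.log 2 := by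
      rw [← Real.log_pow]
      apply Real.log_le_log (by linarith)
      have : m ≤ 2 ^ (j + 1) := by rw [pow_succ]; omega
      exact_mod_cast this
    push_cast at h5
    exact h5
  apply le_min
  · refine le_trans ?_ hq
    apply one_div_le_one_div_of_le (by positivity)
    apply mul_le_mul_of_nonneg_left _ hV.le
    nlinarith
  · apply one_div_le_one_div_of_le (by
      apply mul_pos hV
      exact Real.log_pos hmr)
    exact mul_le_mul_of_nonneg_left h4 hV.le

/-- the crude bound in two consecutive blocks -/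
lemma prb_cross {T : ℕ → ℕ} (hmono : Monotone T) {j m : ℕ} (hj1 : 2 ≤ j)
    (h1 : 2 ^ (j - 1) ≤ m) (h2 : m < 2 * 2 ^ j) (hm : ∀ p ∈ Pr (T j), ¬ p ∣ m) :
    1 / (((j : ℝ) + 1) * Real.log 2) ≤ prb T m := by
  have hjr : (2 : ℝ) ≤ j := by exact_mod_cast hj1
  have hl2 : 1 / 2 ≤ Real.log 2 := by have := Real.log_two_gt_d9; linarith
  have hp : 2 ^ 1 ≤ 2 ^ (j - 1) := Nat.pow_le_pow_right (by norm_num) (by omega)
  have hmr : (1 : ℝ) < m := by exact_mod_cast (by omega : 1 < m)
  have hlm : 0 < Real.log m := Real.log_pos hmr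
  have h4 : Real.log m ≤ ((j : ℝ) + 1) * Real.log 2 := by
    have h5 : Real.log m ≤ ((j + 1 : ℕ) : ℝ) * Real.log 2 := by
      rw [← Real.log_pow]
      apply Real.log_le_log (by linarith)
      have : m ≤ 2 ^ (j + 1) := by rw [pow_succ]; omega
      exact_mod_cast this
    push_cast at h5
    exact h5
  have hlog : Nat.log 2 m ≤ j := by
    have : Nat.log 2 m < j + 1 := Nat.log_lt_of_lt_pow (by omega) (by rw [pow_succ]; omega)
    omega
  have hm' : ∀ p ∈ Pr (T (Nat.log 2 m)), ¬ p ∣ m := by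
    intro p hp
    apply hm p
    rw [mem_Pr] at hp ⊢
    exact ⟨hp.1, hp.2.trans (hmono hlog)⟩
  unfold prb
  rw [if_pos hm']
  have hV := VPr_pos (T (Nat.log 2 m))
  have hV1 : VV (Pr (T (Nat.log 2 m))) ≤ 1 := VV_le_one fun p hp => (mem_Pr.1 hp).1
  apply le_min
  · rw [div_le_one (by positivity)]
    nlinarith
  · apply one_div_le_one_div_of_le (by positivity)
    nlinarith

/-- the density is not too small -/
lemma dens_ev {T : ℕ → ℕ} (hT : Slow T) : ∀ᶠ j : ℕ in atTop,
    8 * (j : ℝ) ^ (1 / 2 : ℝ) ≤ VV (Pr (T j)) * j := by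
  obtain ⟨C, hC, h⟩ := VV_low
  have h1 := (isLittleO_log_rpow_atTop (show (0 : ℝ) < 1 / 2 by norm_num)).comp_tendsto
    (tendsto_natCast_atTop_atTop (R := ℝ))
  have h2 := h1.bound (show (0 : ℝ) < 1 / (8 * C) by positivity)
  filter_upwards [h2, hT.ev one_pos, eventually_ge_atTop 2] with j hj hTj hj2
  have hjr : (2 : ℝ) ≤ j := by exact_mod_cast hj2
  have hlj : 0 < Real.log j := Real.log_pos (by linarith)
  simp only [Function.comp, Real.norm_eq_abs] at hj
  rw [abs_of_pos hlj, abs_of_nonneg (by positivity)] at hj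
  rw [one_mul] at hTj
  have h3 : Real.log ((max (T j) 2 : ℕ) : ℝ) ≤ Real.log j := by
    apply Real.log_le_log
    · have : 2 ≤ max (T j) 2 := le_max_right _ _
      exact_mod_cast (by omega : 0 < max (T j) 2)
    · have : max (T j) 2 ≤ j := max_le (by exact_mod_cast hTj) hj2
      exact_mod_cast this
  have hm0 : 0 < Real.log ((max (T j) 2 : ℕ) : ℝ) := by
    apply Real.log_pos
    have : 2 ≤ max (T j) 2 := le_max_right _ _
    exact_mod_cast (by omega : 1 < max (T j) 2)
  have h4 := h (T j)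
  have h5 : 1 / (C * Real.log j) ≤ VV (Pr (T j)) := by
    refine le_trans ?_ h4
    apply one_div_le_one_div_of_le (by positivity)
    gcongr
  have h6 : Real.log j * (8 * C) ≤ (j : ℝ) ^ (1 / 2 : ℝ) := by
    calc Real.log j * (8 * C) ≤ 1 / (8 * C) * (j : ℝ) ^ (1 / 2 : ℝ) * (8 * C) := by gcongr
      _ = _ := by field_simp
  have h7 : (j : ℝ) ^ (1 / 2 : ℝ) * (j : ℝ) ^ (1 / 2 : ℝ) = j := by
    rw [← Real.rpow_add (by linarith)]
    norm_num
  calc 8 * (j : ℝ) ^ (1 / 2 : ℝ) = 1 / (C * Real.log j) * ((j : ℝ) ^ (1 / 2 : ℝ) * (Real.log j * (8 * C))) := by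
        field_simp
    _ ≤ 1 / (C * Real.log j) * ((j : ℝ) ^ (1 / 2 : ℝ) * (j : ℝ) ^ (1 / 2 : ℝ)) := by gcongr
    _ = 1 / (C * Real.log j) * j := by rw [h7]
    _ ≤ _ := by gcongr

/-- polynomials are smaller than `exp √j` -/
lemma poly_exp (s : ℕ) : ∀ᶠ j : ℕ in atTop, ((j ^ s + 4 * j ^ 2 + 1 : ℕ) : ℝ) ≤ Real.exp ((j : ℝ) ^ (1 / 2 : ℝ)) := by
  have h0 := (isLittleO_rpow_exp_pos_mul_atTop ((2 * (s + 2) : ℕ) : ℝ) one_pos).comp_tendsto
    ((tendsto_rpow_atTop (show (0 : ℝ) < 1 / 2 by norm_num)).comp (tendsto_natCast_atTop_atTop (R := ℝ)))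
  have h1 := h0.bound (show (0 : ℝ) < 1 / 6 by norm_num)
  filter_upwards [h1, eventually_ge_atTop 1] with j hj hj1
  have hjr : (1 : ℝ) ≤ j := by exact_mod_cast hj1
  simp only [Function.comp, Real.norm_eq_abs, Real.abs_exp, one_mul] at hj
  rw [abs_of_nonneg (by positivity), ← Real.rpow_mul (by linarith)] at hj
  have e : (1 / 2 : ℝ) * ((2 * (s + 2) : ℕ) : ℝ) = ((s + 2 : ℕ) : ℝ) := by
    push_cast
    ring
  rw [e, Real.rpow_natCast] at hj
  have h6 : (j : ℝ) ^ s ≤ (j : ℝ) ^ (s + 2) := pow_le_pow_right₀ hjr (by omega)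
  have h7 : (j : ℝ) ^ 2 ≤ (j : ℝ) ^ (s + 2) := pow_le_pow_right₀ hjr (by omega)
  have h8 : (1 : ℝ) ≤ (j : ℝ) ^ (s + 2) := one_le_pow₀ hjr
  push_cast
  linarith

/-- windows with many survivors are not empty -/
theorem ae_long {T : ℕ → ℕ} (hT : Slow T) (hmono : Monotone T) {ε : ℝ} (hε : 0 < ε) (hε1 : ε ≤ 1)
    {Ω : Type} [MeasurableSpace Ω] (P : Measure Ω) [IsProbabilityMeasure P] {A : ℕ → Set Ω} (hA : Granville T P A) :
    ∀ᵐ ω ∂P, ∀ᶠ j : ℕ in atTop, ∀ b : ℕ, 2 ^ j ≤ b → b < 2 * 2 ^ j → ∀ g : ℕ,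
      (1 + ε) * (VV (Pr (T j)) * ((j : ℝ) * Real.log 2) ^ 2) ≤ Mn (T j) g →
      ∃ m : ℕ, b - g < m ∧ m ≤ b ∧ m ∈ rset A ω := by
  classical
  obtain ⟨s, hs, hb⟩ := bound_g
  have hb' := hb T hT
  set h : ℕ → ℕ := fun j => sInf {g : ℕ | (1 + ε) * (VV (Pr (T j)) * ((j : ℝ) * Real.log 2) ^ 2) ≤ Mn (T j) g} with hh
  have hne : ∀ᶠ j : ℕ in atTop, (1 + ε) * (VV (Pr (T j)) * ((j : ℝ) * Real.log 2) ^ 2) ≤ Mn (T j) (h j) ∧
      h j ≤ j ^ s + 4 * j ^ 2 + 1 := by
    filter_upwards [hb'] with j hj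
    have h1 : (1 + ε) * (VV (Pr (T j)) * ((j : ℝ) * Real.log 2) ^ 2) ≤ Mn (T j) (j ^ s + 4 * j ^ 2 + 1) := by
      by_contra hcon
      push Not at hcon
      have hV := VPr_pos (T j)
      have h2 := hj (j ^ s + 4 * j ^ 2 + 1) (hcon.le.trans (mul_le_mul_of_nonneg_right (by linarith) (by positivity)))
      omega
    exact ⟨Nat.sInf_mem (s := {g : ℕ | (1 + ε) * (VV (Pr (T j)) * ((j : ℝ) * Real.log 2) ^ 2) ≤ Mn (T j) g}) ⟨_, h1⟩,
      Nat.sInf_le h1⟩
  have hsmall : ∀ᶠ j : ℕ in atTop, h j ≤ 2 ^ (j - 1) := by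
    filter_upwards [hne, ev_pow 6 (s + 2) (show (0 : ℝ) < 1 / 2 by norm_num), eventually_ge_atTop 2] with j hj hpo hj2
    have hjle := hj.2
    have hjr : (2 : ℝ) ≤ j := by exact_mod_cast hj2
    have h5 : ((h j : ℕ) : ℝ) ≤ (j : ℝ) ^ s + 4 * (j : ℝ) ^ 2 + 1 := by exact_mod_cast hjle
    have hj1' : (1 : ℝ) ≤ j := by linarith
    have h6 : (j : ℝ) ^ s ≤ (j : ℝ) ^ (s + 2) := pow_le_pow_right₀ hj1' (by omega)
    have h7 : (j : ℝ) ^ 2 ≤ (j : ℝ) ^ (s + 2) := pow_le_pow_right₀ hj1' (by omega)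
    have h8 : (1 : ℝ) ≤ (j : ℝ) ^ (s + 2) := one_le_pow₀ hj1'
    have e : (j : ℝ) ^ ((s : ℝ) + 2) = (j : ℝ) ^ (s + 2) := by
      rw [← Real.rpow_natCast]
      push_cast
      rfl
    rw [e] at hpo
    have h9 : (2 : ℝ) ^ ((1 / 2 : ℝ) * j) ≤ ((2 ^ (j - 1) : ℕ) : ℝ) := by
      push_cast
      rw [← Real.rpow_natCast]
      apply Real.rpow_le_rpow_of_exponent_le (by norm_num)
      rw [Nat.cast_sub (by omega)]
      push_cast
      linarith
    have h10 : ((h j : ℕ) : ℝ) ≤ ((2 ^ (j - 1) : ℕ) : ℝ) := by linarith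
    exact_mod_cast h10
  set Bad : ℕ → Set Ω := fun j => ⋃ b ∈ Ico (2 ^ j) (2 * 2 ^ j), emp A (b - h j) (h j) with hBad
  have hprob : ∀ᶠ j : ℕ in atTop, P (Bad j) ≤
      ENNReal.ofReal ((2 : ℝ) ^ (-(ε / 2) * j) + Real.exp (-(j : ℝ) ^ (1 / 2 : ℝ))) := by
    filter_upwards [hne, q_small hT.sub (show (0 : ℝ) < 1 by norm_num), dens_ev hT, poly_exp s,
      hsmall, eventually_ge_atTop 2,
      eventually_ge_atTop (⌈2 / ε + 1⌉₊)] with j hj hq hd hpe hhj hj2 hjε
    obtain ⟨hj1, hjle⟩ := hj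
    have hjr : (2 : ℝ) ≤ j := by exact_mod_cast hj2
    have hl2 := log2_pos
    have hl2' : 1 / 2 ≤ Real.log 2 := by have := Real.log_two_gt_d9; linarith
    have hV := VPr_pos (T j)
    have hjε' : 2 / ε + 1 ≤ j := Nat.ceil_le.1 hjε
    have hpj : 2 ^ j = 2 * 2 ^ (j - 1) := by
      rw [← pow_succ']
      congr 1
      omega
    set A1 : ℝ := Real.exp (-((1 + ε / 2) * (j * Real.log 2))) with hA1
    set B1 : ℝ := Real.exp (-(2 * (j : ℝ) ^ (1 / 2 : ℝ))) with hB1
    have hwin : ∀ b ∈ Ico (2 ^ j) (2 * 2 ^ j), P (emp A (b - h j) (h j)) ≤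
        ENNReal.ofReal (A1 + if b < 2 ^ j + h j then B1 else 0) := by
      intro b hb
      rw [mem_Ico] at hb
      have hbh : b - h j + h j = b := Nat.sub_add_cancel (by omega)
      have hcnt : (1 + ε) * (VV (Pr (T j)) * ((j : ℝ) * Real.log 2) ^ 2) ≤ cnt (T j) (b - h j) (h j) :=
        hj1.trans (by exact_mod_cast Mn_le (T j) (b - h j) (h j))
      by_cases hc : b < 2 ^ j + h j
      · -- the window may cross the end of the block
        rw [if_pos hc]
        have h1 := emp_le_cnt hA (T j) (b - h j) (h j) (κ := 1 / (((j : ℝ) + 1) * Real.log 2)) (by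
          intro m hm hm2
          rw [mem_Ioc, hbh] at hm
          exact prb_cross hmono hj2 (by omega) (by omega) hm2)
        refine h1.trans (ENNReal.ofReal_le_ofReal ?_)
        have h2 : B1 ≤ A1 + B1 := by
          have : 0 < A1 := Real.exp_pos _
          linarith
        refine le_trans (Real.exp_le_exp.2 (neg_le_neg ?_)) h2
        calc 2 * (j : ℝ) ^ (1 / 2 : ℝ) = 8 * (j : ℝ) ^ (1 / 2 : ℝ) / 4 := by ring
          _ ≤ VV (Pr (T j)) * j / 4 := by gcongr
          _ ≤ 1 / (((j : ℝ) + 1) * Real.log 2) * (VV (Pr (T j)) * ((j : ℝ) * Real.log 2) ^ 2) := by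
              rw [one_div_mul_eq_div, div_le_div_iff₀ (by norm_num) (by positivity)]
              have e1 : VV (Pr (T j)) * ((j : ℝ) * Real.log 2) ^ 2 * 4 =
                  VV (Pr (T j)) * j * Real.log 2 * (4 * (j * Real.log 2)) := by ring
              have e2 : VV (Pr (T j)) * (j : ℝ) * (((j : ℝ) + 1) * Real.log 2) =
                  VV (Pr (T j)) * j * Real.log 2 * (j + 1) := by ring
              rw [e1, e2]
              apply mul_le_mul_of_nonneg_left _ (by positivity)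
              nlinarith
          _ ≤ 1 / (((j : ℝ) + 1) * Real.log 2) * cnt (T j) (b - h j) (h j) := by
              apply mul_le_mul_of_nonneg_left _ (by positivity)
              refine le_trans ?_ hcnt
              have : 0 ≤ VV (Pr (T j)) * ((j : ℝ) * Real.log 2) ^ 2 := by positivity
              nlinarith
      · rw [if_neg hc, add_zero]
        have h1 := emp_le_cnt hA (T j) (b - h j) (h j) (κ := 1 / (VV (Pr (T j)) * (((j : ℝ) + 1) * Real.log 2))) (by
          intro m hm hm2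
          rw [mem_Ioc, hbh] at hm
          exact prb_in (by omega) hq (by omega) (by omega) hm2)
        refine h1.trans (ENNReal.ofReal_le_ofReal (Real.exp_le_exp.2 (neg_le_neg ?_)))
        calc (1 + ε / 2) * (j * Real.log 2) ≤ (1 + ε) * (j ^ 2 * Real.log 2) / (j + 1) := by
              rw [le_div_iff₀ (by positivity)]
              have h3 : (1 + ε / 2) * ((j : ℝ) + 1) ≤ (1 + ε) * j := by
                have h4 : 1 + ε / 2 ≤ ε / 2 * j := by
                  have h5 : ε / 2 * (2 / ε + 1) ≤ ε / 2 * j := mul_le_mul_of_nonneg_left hjε' (by positivity)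
                  have h6 : ε / 2 * (2 / ε + 1) = 1 + ε / 2 := by field_simp
                  linarith
                linarith
              calc (1 + ε / 2) * (j * Real.log 2) * (j + 1) = (j * Real.log 2) * ((1 + ε / 2) * ((j : ℝ) + 1)) := by ring
                _ ≤ (j * Real.log 2) * ((1 + ε) * j) := by gcongr
                _ = _ := by ring
          _ = 1 / (VV (Pr (T j)) * (((j : ℝ) + 1) * Real.log 2)) *
              ((1 + ε) * (VV (Pr (T j)) * ((j : ℝ) * Real.log 2) ^ 2)) := by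
              field_simp
          _ ≤ _ := by
              apply mul_le_mul_of_nonneg_left hcnt (by positivity)
    have hB0 : 0 < B1 := Real.exp_pos _
    have hA0 : 0 < A1 := Real.exp_pos _
    calc P (Bad j) ≤ ∑ b ∈ Ico (2 ^ j) (2 * 2 ^ j), P (emp A (b - h j) (h j)) := measure_biUnion_finset_le _ _
      _ ≤ ∑ b ∈ Ico (2 ^ j) (2 * 2 ^ j), ENNReal.ofReal (A1 + if b < 2 ^ j + h j then B1 else 0) := sum_le_sum hwin
      _ = ENNReal.ofReal (∑ b ∈ Ico (2 ^ j) (2 * 2 ^ j), (A1 + if b < 2 ^ j + h j then B1 else 0)) := by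
          rw [ENNReal.ofReal_sum_of_nonneg]
          intro b _
          split_ifs <;> positivity
      _ ≤ _ := by
          apply ENNReal.ofReal_le_ofReal
          rw [sum_add_distrib]
          apply add_le_add
          · rw [sum_const, nsmul_eq_mul, Nat.card_Ico]
            have e1 : 2 * 2 ^ j - 2 ^ j = 2 ^ j := by omega
            rw [e1, hA1, two_rpow]
            push_cast
            rw [show (2 : ℝ) ^ j = Real.exp (j * Real.log 2) by
              rw [← Real.log_pow, Real.exp_log (by positivity)], ← Real.exp_add]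
            apply Real.exp_le_exp.2
            linarith
          · rw [← sum_filter, sum_const, nsmul_eq_mul]
            have h1 : (((Ico (2 ^ j) (2 * 2 ^ j)).filter (fun b => b < 2 ^ j + h j)).card : ℝ) ≤
                Real.exp ((j : ℝ) ^ (1 / 2 : ℝ)) := by
              refine le_trans ?_ hpe
              have h2 : (Ico (2 ^ j) (2 * 2 ^ j)).filter (fun b => b < 2 ^ j + h j) ⊆ Ico (2 ^ j) (2 ^ j + h j) := by
                intro b hb
                rw [mem_filter, mem_Ico] at hb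
                rw [mem_Ico]
                omega
              have h3 := card_le_card h2
              rw [Nat.card_Ico] at h3
              exact_mod_cast h3.trans (by omega)
            calc _ ≤ Real.exp ((j : ℝ) ^ (1 / 2 : ℝ)) * B1 := by gcongr
              _ = _ := by
                rw [hB1, ← Real.exp_add]
                congr 1
                ring
  obtain ⟨j0, hj0⟩ := eventually_atTop.1 hprob
  have hsum : (∑' j, P (Bad (j + j0))) ≠ ⊤ := by
    have h1 : Summable (fun j : ℕ => (2 : ℝ) ^ (-(ε / 2) * j) + Real.exp (-(j : ℝ) ^ (1 / 2 : ℝ))) := by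
      apply Summable.add
      · have e : (fun j : ℕ => (2 : ℝ) ^ (-(ε / 2) * j)) = fun j : ℕ => ((2 : ℝ) ^ (-(ε / 2))) ^ j := by
          funext j
          rw [Real.rpow_mul (by norm_num), Real.rpow_natCast]
        rw [e]
        apply summable_geometric_of_lt_one (by positivity)
        exact Real.rpow_lt_one_of_one_lt_of_neg (by norm_num) (by linarith)
      · exact Pool.Agent.K4H77.Noise.summable_exp (1 / 2) (by norm_num)
    have h2 := (summable_nat_add_iff j0).2 h1
    exact ne_top_of_le_ne_top h2.tsum_ofReal_ne_top (ENNReal.tsum_le_tsum fun j => hj0 (j + j0) (Nat.le_add_left _ _))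
  filter_upwards [ae_eventually_notMem hsum] with ω hω
  obtain ⟨j1, hj1⟩ := eventually_atTop.1 hω
  filter_upwards [eventually_ge_atTop (j1 + j0), hsmall] with j hj hnj b hb1 hb2 g hg
  have h1 := hj1 (j - j0) (by omega)
  rw [Nat.sub_add_cancel (by omega)] at h1
  have hhg : h j ≤ g := Nat.sInf_le hg
  have h2 : ω ∉ emp A (b - h j) (h j) := by
    intro hcon
    apply h1
    rw [Set.mem_iUnion₂]
    exact ⟨b, mem_Ico.2 ⟨hb1, hb2⟩, hcon⟩
  have h3 : ∃ i ∈ Icc 1 (h j), b - h j + i ∈ rset A ω := by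
    by_contra hcon
    push Not at hcon
    exact h2 ((mem_emp_iff A ω (b - h j) (h j)).2 hcon)
  obtain ⟨i, hi, hi2⟩ := h3
  rw [mem_Icc] at hi
  have h4 : 2 ^ (j - 1) ≤ 2 ^ j := Nat.pow_le_pow_right (by norm_num) (by omega)
  exact ⟨b - h j + i, by omega, by omega, hi2⟩

end Pool.Agent.K4H19.GX
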