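import Pool.Agent.K4H19.GX.C

/-! The first occurrence: deterministic part and assembly. -/

set_option autoImplicit false

open MeasureTheory ProbabilityTheory Finset Filter
open scoped Topology

namespace Pool.Agent.K4H19.GX

open Pool.Agent.K4H19.GM
open Pool.Agent.K4H77.Noise (emp rset mem_emp_iff firstAfter firstAfter_le firstAfter_spec nth_gap rset_infinite)

/-- an empty window gives a gap -/
lemma first_of_win {S : Set ℕ} (hS : S.Infinite) {a j n g : ℕ} (ha : a ∈ S) (haj : a < 2 ^ j) (h3 : 2 ^ j ≤ n)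
    (h4 : n + g < 2 * 2 ^ j) (h5 : ∀ i ∈ Icc 1 g, n + i ∉ S)
    (h6 : ∃ b, 2 * 2 ^ j < b ∧ b ≤ 2 * (2 * 2 ^ j) ∧ b ∈ S) :
    (∃ k : ℕ, Nat.nth (· ∈ S) k + g < Nat.nth (· ∈ S) (k + 1)) ∧ firstAfter S g ≤ 2 ^ (j + 2) := by
  classical
  obtain ⟨b, hb1, hb2, hb3⟩ := h6
  have hcpos : 0 < Nat.count (· ∈ S) (n + 1) := by
    rw [Nat.count_eq_card_filter_range, Finset.card_pos]
    exact ⟨a, Finset.mem_filter.2 ⟨Finset.mem_range.2 (by omega), ha⟩⟩
  obtain ⟨e1, e2⟩ := nth_gap hS h5 hcpos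
  set k := Nat.count (· ∈ S) (n + 1) - 1 with hk
  have hgap : Nat.nth (· ∈ S) k + g < Nat.nth (· ∈ S) (k + 1) := by omega
  refine ⟨⟨k, hgap⟩, ?_⟩
  have h11 := firstAfter_le hgap
  have h12 : Nat.nth (· ∈ S) (k + 1) ≤ b := by
    have h12 : k + 1 < Nat.count (· ∈ S) (b + 1) := by
      have h13 : Nat.count (· ∈ S) (b + 1) = Nat.count (· ∈ S) b + 1 := by
        rw [Nat.count_succ, if_pos hb3]
      have h14 : Nat.count (· ∈ S) (n + 1) ≤ Nat.count (· ∈ S) b :=
        Nat.count_monotone _ (by omega)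
      omega
    have := Nat.nth_lt_of_lt_count h12
    omega
  rw [pow_succ, pow_succ]
  omega

/-- no element in the window before the first occurrence -/
lemma no_mem {S : Set ℕ} (hS : S.Infinite) {g m : ℕ}
    (h : ∃ k : ℕ, Nat.nth (· ∈ S) k + g < Nat.nth (· ∈ S) (k + 1))
    (h1 : firstAfter S g - 1 - g < m) (h2 : m ≤ firstAfter S g - 1) : m ∉ S := by
  classical
  intro hm
  obtain ⟨k, e1, e2⟩ := firstAfter_spec h
  have h3 : Nat.nth (· ∈ S) (Nat.count (· ∈ S) m) = m := Nat.nth_count hm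
  have hmono : StrictMono (Nat.nth (· ∈ S)) := Nat.nth_strictMono (p := (· ∈ S)) hS
  have h4 : k < Nat.count (· ∈ S) m := by
    rw [← hmono.lt_iff_lt, h3]
    omega
  have h5 : Nat.count (· ∈ S) m < k + 1 := by
    rw [← hmono.lt_iff_lt, h3, ← e1]
    omega
  omega

/-- the normalised least number of survivors -/
noncomputable def Rt (T : ℕ → ℕ) (g j : ℕ) : ℝ := Real.sqrt (Mn (T j) g / VV (Pr (T j)))

/-- the scale -/
noncomputable def psi (T : ℕ → ℕ) (g : ℕ) : ℝ := ⨅ j : ℕ, max ((j : ℝ) * Real.log 2) (Rt T g j)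

lemma psi_le (T : ℕ → ℕ) (g j : ℕ) : psi T g ≤ max ((j : ℝ) * Real.log 2) (Rt T g j) := by
  apply ciInf_le
  refine ⟨0, ?_⟩
  rintro _ ⟨i, rfl⟩
  exact le_max_of_le_right (Real.sqrt_nonneg _)

lemma psi_spec (T : ℕ → ℕ) (g : ℕ) : ∃ j : ℕ, (j : ℝ) * Real.log 2 ≤ psi T g + 1 ∧ Rt T g j ≤ psi T g + 1 := by
  obtain ⟨j, hj⟩ := exists_lt_of_ciInf_lt (show psi T g < psi T g + 1 by linarith)
  exact ⟨j, (le_max_left _ _).trans hj.le, (le_max_right _ _).trans hj.le⟩

lemma psi_tendsto {T : ℕ → ℕ} (hmono : Monotone T) : Tendsto (psi T) atTop atTop := by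
  rw [tendsto_atTop]
  intro B
  obtain ⟨s, hs, h⟩ := Mn_low
  have hl2 := log2_pos
  set J : ℕ := ⌈B / Real.log 2⌉₊ with hJ
  filter_upwards [eventually_ge_atTop (T J ^ s), eventually_ge_atTop (⌈2 * B ^ 2⌉₊)] with g hg1 hg2
  apply le_ciInf
  intro j
  rcases le_total J j with hj | hj
  · apply le_max_of_le_left
    have h1 : B / Real.log 2 ≤ J := Nat.le_ceil _
    have h2 : (J : ℝ) ≤ j := by exact_mod_cast hj
    rw [div_le_iff₀ hl2] at h1
    nlinarith
  · apply le_max_of_le_right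
    have h1 := h (T j) g ((Nat.pow_le_pow_left (hmono hj) s).trans hg1)
    have hV := VPr_pos (T j)
    apply Real.le_sqrt_of_sq_le
    rw [le_div_iff₀ hV]
    have h2 : 2 * B ^ 2 ≤ g := Nat.ceil_le.1 hg2
    have h3 : 2 * B ^ 2 * VV (Pr (T j)) ≤ g * VV (Pr (T j)) := mul_le_mul_of_nonneg_right h2 hV.le
    linarith

/-- the deterministic part -/
theorem det {T : ℕ → ℕ} (hmono : Monotone T) {S : Set ℕ} (hS : S.Infinite)
    (hdy : ∀ᶠ x : ℕ in atTop, ∃ m : ℕ, x < m ∧ m ≤ 2 * x ∧ m ∈ S)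
    (hU : ∀ i : ℕ, ∀ᶠ j : ℕ in atTop, ∀ g : ℕ,
      (Mn (T j) g : ℝ) ≤ (1 - 1 / ((i : ℝ) + 2)) * (VV (Pr (T j)) * ((j : ℝ) * Real.log 2) ^ 2) →
      ∃ n : ℕ, 2 ^ j ≤ n ∧ n + g < 2 * 2 ^ j ∧ ∀ i ∈ Icc 1 g, n + i ∉ S)
    (hL : ∀ i : ℕ, ∀ᶠ j : ℕ in atTop, ∀ b : ℕ, 2 ^ j ≤ b → b < 2 * 2 ^ j → ∀ g : ℕ,
      (1 + 1 / ((i : ℝ) + 2)) * (VV (Pr (T j)) * ((j : ℝ) * Real.log 2) ^ 2) ≤ Mn (T j) g →
      ∃ m : ℕ, b - g < m ∧ m ≤ b ∧ m ∈ S) :
    (∀ᶠ g : ℕ in atTop, ∃ k : ℕ, Nat.nth (· ∈ S) k + g < Nat.nth (· ∈ S) (k + 1)) ∧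
      Tendsto (fun g : ℕ => Real.log (firstAfter S g) / psi T g) atTop (𝓝 1) := by
  classical
  have hl2 := log2_pos
  have hl2' : Real.log 2 ≤ 1 := by have := Real.log_two_lt_d9; linarith
  obtain ⟨a, ha⟩ := hS.nonempty
  have hψ := psi_tendsto hmono
  -- the upper bound
  have upper : ∀ i : ℕ, ∀ᶠ g : ℕ in atTop, (∃ k : ℕ, Nat.nth (· ∈ S) k + g < Nat.nth (· ∈ S) (k + 1)) ∧
      Real.log (firstAfter S g) ≤ (psi T g + 1) / (1 - 1 / ((i : ℝ) + 2)) + 3 := by
    intro i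
    set e : ℝ := 1 - 1 / ((i : ℝ) + 2) with he
    have hi : (1 : ℝ) / ((i : ℝ) + 2) ≤ 1 / 2 := by
      apply one_div_le_one_div_of_le (by norm_num)
      have : (0 : ℝ) ≤ i := Nat.cast_nonneg _
      linarith
    have hi0 : (0 : ℝ) < 1 / ((i : ℝ) + 2) := by positivity
    have he0 : 1 / 2 ≤ e := by rw [he]; linarith
    have he1 : e < 1 := by rw [he]; linarith
    have he00 : 0 < e := by linarith
    set jj : ℕ → ℕ := fun g => ⌈(psi T g + 1) / (e * Real.log 2)⌉₊ with hjj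
    have tjj : Tendsto jj atTop atTop := by
      apply tendsto_nat_ceil_atTop.comp
      apply Tendsto.atTop_div_const (by positivity)
      exact tendsto_atTop_add_const_right _ _ hψ
    have t1 : Tendsto (fun j : ℕ => 2 * 2 ^ j) atTop (atTop : Filter ℕ) :=
      (tendsto_pow_atTop_atTop_of_one_lt (by norm_num : (1 : ℕ) < 2)).const_mul_atTop' (by norm_num)
    filter_upwards [tjj.eventually (hU i), tjj.eventually (t1.eventually hdy), tjj.eventually_ge_atTop a,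
      hψ.eventually_ge_atTop 1] with g h1 h2 h3 h4
    obtain ⟨j0, hj0, hj0'⟩ := psi_spec T g
    set j := jj g with hj
    have hje : (psi T g + 1) / (e * Real.log 2) ≤ j := Nat.le_ceil _
    rw [div_le_iff₀ (by positivity)] at hje
    have hj0j : j0 ≤ j := by
      have h5 : (j0 : ℝ) * Real.log 2 ≤ j * Real.log 2 := by
        have : (0 : ℝ) ≤ j * Real.log 2 := by positivity
        nlinarith
      have h6 : (j0 : ℝ) ≤ j := le_of_mul_le_mul_right h5 hl2
      exact_mod_cast h6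
    have hV := VPr_pos (T j)
    have h5 : (Mn (T j) g : ℝ) / VV (Pr (T j)) ≤ (psi T g + 1) ^ 2 := by
      refine (Mn_anti (hmono hj0j) g).trans ?_
      unfold Rt at hj0'
      exact (Real.sqrt_le_iff.1 hj0').2
    have h6 : (Mn (T j) g : ℝ) ≤ e * (VV (Pr (T j)) * ((j : ℝ) * Real.log 2) ^ 2) := by
      rw [div_le_iff₀ hV] at h5
      refine h5.trans ?_
      have h7 : (psi T g + 1) ^ 2 ≤ (e * (j * Real.log 2)) ^ 2 := by
        apply pow_le_pow_left₀ (by linarith)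
        linarith
      have h8 : (e * ((j : ℝ) * Real.log 2)) ^ 2 ≤ e * ((j : ℝ) * Real.log 2) ^ 2 := by
        rw [mul_pow]
        apply mul_le_mul_of_nonneg_right _ (by positivity)
        nlinarith
      calc (psi T g + 1) ^ 2 * VV (Pr (T j)) ≤ (e * ((j : ℝ) * Real.log 2) ^ 2) * VV (Pr (T j)) :=
            mul_le_mul_of_nonneg_right (h7.trans h8) hV.le
        _ = _ := by ring
    obtain ⟨n, n1, n2, n3⟩ := h1 g h6
    have haj : a < 2 ^ j := lt_of_le_of_lt h3 Nat.lt_two_pow_self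
    obtain ⟨g1, g2⟩ := first_of_win hS ha haj n1 n2 n3 h2
    refine ⟨g1, ?_⟩
    have h9 : 1 ≤ firstAfter S g := by
      obtain ⟨k', hk'1, hk'2⟩ := firstAfter_spec g1
      omega
    have h10 : Real.log (firstAfter S g) ≤ ((j + 2 : ℕ) : ℝ) * Real.log 2 := by
      rw [← Real.log_pow]
      apply Real.log_le_log (by exact_mod_cast h9)
      exact_mod_cast g2
    have h11 : (j : ℝ) < (psi T g + 1) / (e * Real.log 2) + 1 := Nat.ceil_lt_add_one (by positivity)
    calc Real.log (firstAfter S g) ≤ ((j : ℝ) + 2) * Real.log 2 := by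
          push_cast at h10
          exact h10
      _ ≤ ((psi T g + 1) / (e * Real.log 2) + 3) * Real.log 2 := by
          apply mul_le_mul_of_nonneg_right _ hl2.le
          linarith
      _ = (psi T g + 1) / e + 3 * Real.log 2 := by field_simp
      _ ≤ _ := by linarith
  have hocc : ∀ᶠ g : ℕ in atTop, ∃ k : ℕ, Nat.nth (· ∈ S) k + g < Nat.nth (· ∈ S) (k + 1) :=
    (upper 0).mono fun g hg => hg.1
  -- the lower bound
  have lower : ∀ i : ℕ, ∀ᶠ g : ℕ in atTop, psi T g ≤ (1 + 1 / ((i : ℝ) + 2)) * Real.log (firstAfter S g) := by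
    intro i
    have hi0 : (0 : ℝ) < 1 / ((i : ℝ) + 2) := by positivity
    set e : ℝ := 1 + 1 / ((i : ℝ) + 2) with he
    obtain ⟨J, hJ⟩ := eventually_atTop.1 (hL i)
    filter_upwards [hocc, eventually_ge_atTop (2 ^ J)] with g hg hgJ
    have hp : g < firstAfter S g := by
      obtain ⟨k', hk'1, hk'2⟩ := firstAfter_spec hg
      omega
    set p := firstAfter S g with hpd
    set b := p - 1 with hb
    have hb1 : 2 ^ J ≤ b := by omega
    have hb0 : b ≠ 0 := by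
      have : 0 < 2 ^ J := by positivity
      omega
    set j := Nat.log 2 b with hj
    have hx1 : 2 ^ j ≤ b := Nat.pow_log_le_self 2 hb0
    have hx2 : b < 2 * 2 ^ j := by
      have := Nat.lt_pow_succ_log_self (b := 2) (by norm_num) b
      rw [← hj, pow_succ] at this
      omega
    have hJj : J ≤ j := Nat.le_log_of_pow_le (by norm_num) hb1
    have hV := VPr_pos (T j)
    have h1 : (Mn (T j) g : ℝ) < e * (VV (Pr (T j)) * ((j : ℝ) * Real.log 2) ^ 2) := by
      by_contra hcon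
      push Not at hcon
      obtain ⟨m, m1, m2, m3⟩ := hJ j hJj b hx1 hx2 g hcon
      exact no_mem hS hg m1 m2 m3
    have h2 : Rt T g j ≤ e * ((j : ℝ) * Real.log 2) := by
      unfold Rt
      rw [Real.sqrt_le_iff]
      refine ⟨by positivity, ?_⟩
      rw [div_le_iff₀ hV]
      have h3 : e * ((j : ℝ) * Real.log 2) ^ 2 ≤ (e * ((j : ℝ) * Real.log 2)) ^ 2 := by
        rw [mul_pow e]
        apply mul_le_mul_of_nonneg_right _ (by positivity)
        nlinarith
      calc (Mn (T j) g : ℝ) ≤ e * ((j : ℝ) * Real.log 2) ^ 2 * VV (Pr (T j)) := by linarith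
        _ ≤ _ := mul_le_mul_of_nonneg_right h3 hV.le
    have h3 : (j : ℝ) * Real.log 2 ≤ Real.log p := by
      rw [← Real.log_pow]
      apply Real.log_le_log (by positivity)
      have : 2 ^ j ≤ p := by omega
      exact_mod_cast this
    have hj0 : 0 ≤ (j : ℝ) * Real.log 2 := by positivity
    refine (psi_le T g j).trans (max_le ?_ ?_)
    · nlinarith
    · exact h2.trans (mul_le_mul_of_nonneg_left h3 (by linarith))
  refine ⟨hocc, ?_⟩
  rw [Metric.tendsto_atTop]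
  intro ε hε
  -- choose `i`
  obtain ⟨i, hi⟩ : ∃ i : ℕ, 1 / ((i : ℝ) + 2) ≤ min (1 / 4) (ε / 4) := by
    obtain ⟨i, hi⟩ := exists_nat_one_div_lt (show (0 : ℝ) < min (1 / 4) (ε / 4) from lt_min (by norm_num) (by linarith))
    refine ⟨i, le_trans ?_ hi.le⟩
    apply one_div_le_one_div_of_le (by positivity)
    linarith
  set d : ℝ := 1 / ((i : ℝ) + 2) with hd
  have hd0 : 0 < d := by rw [hd]; positivity
  have hd1 : d ≤ 1 / 4 := hi.trans (min_le_left _ _)
  have hd2 : d ≤ ε / 4 := hi.trans (min_le_right _ _)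
  obtain ⟨N, hN⟩ := eventually_atTop.1 ((upper i).and ((lower i).and (hψ.eventually_ge_atTop (20 / ε + 1))))
  refine ⟨N, fun g hg => ?_⟩
  obtain ⟨⟨_, h1⟩, h2, h3⟩ := hN g hg
  set q := psi T g with hq
  set L := Real.log (firstAfter S g) with hL'
  have hq0 : 0 < q := by
    have : 0 < 20 / ε := by positivity
    linarith
  have hq1 : 20 ≤ ε * q := by
    have h4 : ε * (20 / ε + 1) ≤ ε * q := mul_le_mul_of_nonneg_left h3 hε.le
    have h5 : ε * (20 / ε + 1) = 20 + ε := by field_simp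
    linarith
  rw [← hd] at h1 h2
  have hL0 : 0 < L := by
    by_contra hcon
    push Not at hcon
    have : (1 + d) * L ≤ 0 := mul_nonpos_of_nonneg_of_nonpos (by linarith) hcon
    linarith
  have k1 : (1 - d) * q ≤ L := by
    have h4 : (1 - d) * q ≤ (1 - d) * ((1 + d) * L) := mul_le_mul_of_nonneg_left h2 (by linarith)
    have h5 : (1 - d) * ((1 + d) * L) = L - d ^ 2 * L := by ring
    have h6 : 0 ≤ d ^ 2 * L := by positivity
    linarith
  have k2 : L ≤ (1 + 2 * d) * (q + 1) + 3 := by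
    refine h1.trans ?_
    have h4 : (q + 1) / (1 - d) ≤ (1 + 2 * d) * (q + 1) := by
      rw [div_le_iff₀ (by linarith)]
      have h5 : (1 : ℝ) ≤ (1 + 2 * d) * (1 - d) := by nlinarith
      have h6 : (0 : ℝ) ≤ q + 1 := by linarith
      calc q + 1 = 1 * (q + 1) := by ring
        _ ≤ ((1 + 2 * d) * (1 - d)) * (q + 1) := mul_le_mul_of_nonneg_right h5 h6
        _ = _ := by ring
    linarith
  have k3 : d * q ≤ ε / 4 * q := mul_le_mul_of_nonneg_right hd2 hq0.le
  rw [Real.dist_eq, abs_lt]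
  constructor
  · have h4 : 1 - d ≤ L / q := by
      rw [le_div_iff₀ hq0]
      exact k1
    linarith
  · have h4 : L / q < 1 + ε := by
      rw [div_lt_iff₀ hq0]
      nlinarith
    linarith

/-- the law of the first occurrence -/
theorem ae_law {T : ℕ → ℕ} (hT : Slow T) (hmono : Monotone T)
    {Ω : Type} [MeasurableSpace Ω] (P : Measure Ω) [IsProbabilityMeasure P] {A : ℕ → Set Ω} (hA : Granville T P A) :
    ∀ᵐ ω ∂P, (rset A ω).Infinite ∧
      (∀ᶠ g : ℕ in atTop, ∃ k : ℕ, Nat.nth (· ∈ rset A ω) k + g < Nat.nth (· ∈ rset A ω) (k + 1)) ∧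
      Tendsto (fun g : ℕ => Real.log (firstAfter (rset A ω) g) / psi T g) atTop (𝓝 1) := by
  have hpos : ∀ i : ℕ, (0 : ℝ) < 1 / ((i : ℝ) + 2) := fun i => by positivity
  have hle : ∀ i : ℕ, (1 : ℝ) / ((i : ℝ) + 2) ≤ 1 := fun i => by
    rw [div_le_one (by positivity)]
    have : (0 : ℝ) ≤ i := Nat.cast_nonneg _
    linarith
  have h1 : ∀ᵐ ω ∂P, ∀ i : ℕ, _ := ae_all_iff.2 fun i => ae_short hT (hpos i) (hle i) P hA
  have h2 : ∀ᵐ ω ∂P, ∀ i : ℕ, _ := ae_all_iff.2 fun i => ae_long hT hmono (hpos i) (hle i) P hA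
  filter_upwards [ae_basic hT.sub P hA, h1, h2] with ω hb hU hL
  exact ⟨hb.1, det hmono hb.1 hb.2 hU hL⟩

end Pool.Agent.K4H19.GX
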